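import Pool.Agent.Q211.Pam.Lattice

open MeasureTheory ProbabilityTheory

namespace Pool.Agent.Results.MP_360c0a_pr.Monotone

open Pool.Agent.Q211.Pam

/-- For almost every environment with `0 < c ≤ ξ ≤ M` and every bounded nonnegative nonzero
initial condition, the solution `u` of the parabolic Anderson problem exists, is unique and
positive, `t ↦ t e^{-ct} u(t,x)` is nondecreasing on `(0,∞)`, and `t ↦ u(t,x)` is strictly
increasing on `[1/c, ∞)`, for every `x`. -/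
theorem result {Ω : Type*} [MeasurableSpace Ω] (P : Measure Ω) (ξ : ℤ → Ω → ℝ)
    (hid : ∀ x, IdentDistrib (ξ x) (ξ 0) P P) (c M : ℝ) (hc : 0 < c)
    (hb : ∀ᵐ ω ∂P, c ≤ ξ 0 ω ∧ ξ 0 ω ≤ M) :
    ∀ᵐ ω ∂P, ∀ u0 : ℤ → ℝ, (∃ C, ∀ y, 0 ≤ u0 y ∧ u0 y ≤ C) → (∃ y, 0 < u0 y) →
      ∃ u : ℝ → ℤ → ℝ, IsPAM (fun x => ξ x ω) u0 u ∧
        (∀ v, IsPAM (fun x => ξ x ω) u0 v → ∀ t, 0 ≤ t → ∀ x, v t x = u t x) ∧
        (∀ t, 0 < t → ∀ x, 0 < u t x) ∧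
        (∀ x s t, 0 < s → s ≤ t →
          s * Real.exp (-(c * s)) * u s x ≤ t * Real.exp (-(c * t)) * u t x) ∧
        (∀ x, StrictMonoOn (fun t => u t x) (Set.Ici (1 / c))) := by
  have h : ∀ x, ∀ᵐ ω ∂P, ξ x ω ∈ Set.Icc c M := fun x =>
    (hid x).symm.ae_mem_snd measurableSet_Icc hb
  filter_upwards [ae_all_iff.2 h] with ω hω u0 hC hpos
  obtain ⟨C, hC⟩ := hC
  exact main hc (fun x => hω x) hC hpos

end Pool.Agent.Results.MP_360c0a_pr.Monotone
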